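import Mathlib
import Pool.Agent.Work.MP_44129c_co.X1.Defs
import Pool.Agent.Work.MP_44129c_co.G.CDefs
import Pool.Agent.Work.MP_44129c_co.N.C34

/-!
# MP_44129c_co/O2, Defs (helper8; FIXED, do not change): even `m`

`K` = the subgroup of order `2`.  `G.cls c u K r` (G/CDefs) = the vertices `x ≠ u` with `c u x - r ∈ K` (a `K`-class), `cla c u a` (X1/Defs) = the class of colour `a` at `u`,
`G.DD c u v L` (G/PDefs) = the number of `z ≠ u, v` with `c u z - c v z ∉ L`.  `M = m / 2`.
-/

set_option autoImplicit false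

namespace ZS44129
namespace O2

open Finset E X1

variable {V : Type} [Fintype V] [DecidableEq V] {m : ℕ}

/-- the situation. -/
structure EvS (c : V → V → ZMod m) (s : ℕ) : Prop where
  sym : ∀ x y, c x y = c y x
  zsf : ZSF m c
  card : Fintype.card V = m + s
  s4 : 4 ≤ s
  m1 : 3 * s ≤ m + 2
  m2 : m ≤ 3 * s + 1
  ev : 2 ∣ m

theorem cla_sub (c : V → V → ZMod m) (u : V) (K : AddSubgroup (ZMod m)) (a : ZMod m) :
    cla c u a ⊆ G.cls c u K a := by
  intro x hx
  unfold cla at hx
  rw [mem_filter, mem_erase] at hx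
  rw [G.mem_cls]
  refine ⟨hx.1.1, ?_⟩
  rw [hx.2, sub_self]
  exact K.zero_mem

end O2
end ZS44129
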