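import Mathlib
import Pool.Agent.Work.MP_44129c_co.O2.Defs

/-!
# MP_44129c_co/O2, SumK (size S-M): the sum of all `DD c u v K` over `v`

As O1/Sum (proved; adapt it).  `n = |V| - 1`.
PROOF of `sum_ddK`.  `∑_{v ≠ u} #{z ≠ u, v : c u z - c v z ∉ K} = ∑_{z ≠ u} #{v ≠ u, z : c u z - c v z ∉ K}`, `c v z = c z v`, `c u z = c z u`: for `z ≠ u` the vertices `v ≠ z` with `c z v - c z u ∈ K` are
`cls c z K (c z u)` (it contains `u`), so the number is `n - |cls c z K (c z u)|`.
-/

set_option autoImplicit false

namespace ZS44129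
namespace O2

open Finset E X1

variable {V : Type} [Fintype V] [DecidableEq V] {m : ℕ}

open Classical in
private theorem ddK_eq (c : V → V → ZMod m) (K : AddSubgroup (ZMod m)) (u v : V) :
    G.DD c u v K = ∑ z ∈ (univ.erase u).erase v, (if c u z - c v z ∈ K then 0 else 1) := by
  have h0 : G.DD c u v K =
      (((univ.erase u).erase v).filter (fun z => ¬ c u z - c v z ∈ K)).card := by
    unfold G.DD G.Dn G.XX
    rfl
  rw [h0, Finset.card_filter]
  refine Finset.sum_congr rfl fun z _ => ?_
  by_cases h : c u z - c v z ∈ K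
  · rw [if_pos h, if_neg (not_not.2 h)]
  · rw [if_neg h, if_pos h]

open Classical in
private theorem clsK_eq (c : V → V → ZMod m) (hsym : ∀ x y, c x y = c y x)
    (K : AddSubgroup (ZMod m)) {u z : V} (hz : z ≠ u) :
    ∑ v ∈ (univ.erase u).erase z, (if c u z - c v z ∈ K then 0 else 1) +
      (G.cls c z K (c z u)).card = Fintype.card V - 1 := by
  have h1 : G.cls c z K (c z u) =
      insert u (((univ.erase u).erase z).filter (fun v => c u z - c v z ∈ K)) := by
    ext v
    rw [G.mem_cls, Finset.mem_insert, Finset.mem_filter, Finset.mem_erase, Finset.mem_erase]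
    constructor
    · rintro ⟨a, b⟩
      by_cases h : v = u
      · exact Or.inl h
      · refine Or.inr ⟨⟨a, h, Finset.mem_univ _⟩, ?_⟩
        rw [hsym u z, hsym v z, ← neg_sub]
        exact K.neg_mem b
    · rintro (a | ⟨⟨a, -, -⟩, b⟩)
      · rw [a]
        exact ⟨hz.symm, by rw [sub_self]; exact K.zero_mem⟩
      · refine ⟨a, ?_⟩
        rw [hsym z v, hsym z u, ← neg_sub]
        exact K.neg_mem b
  have h2 : u ∉ ((univ.erase u).erase z).filter (fun v => c u z - c v z ∈ K) := by
    intro h
    exact Finset.notMem_erase u _ (Finset.mem_of_mem_erase (Finset.mem_filter.1 h).1)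
  have h3 : ∑ v ∈ (univ.erase u).erase z, (if c u z - c v z ∈ K then 0 else 1) =
      (((univ.erase u).erase z).filter (fun v => ¬ c u z - c v z ∈ K)).card := by
    rw [Finset.card_filter]
    refine Finset.sum_congr rfl fun v _ => ?_
    by_cases h : c u z - c v z ∈ K
    · rw [if_pos h, if_neg (not_not.2 h)]
    · rw [if_neg h, if_pos h]
  have h4 := Finset.card_filter_add_card_filter_not (s := (univ.erase u).erase z)
    (fun v => c u z - c v z ∈ K)
  have h5 : ((univ.erase u).erase z).card + 1 = Fintype.card V - 1 := by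
    rw [Finset.card_erase_add_one (Finset.mem_erase.2 ⟨hz, Finset.mem_univ _⟩),
      Finset.card_erase_of_mem (Finset.mem_univ _), Finset.card_univ]
  rw [h1, Finset.card_insert_of_notMem h2, h3]
  omega

theorem sum_ddK (c : V → V → ZMod m) (hsym : ∀ x y, c x y = c y x) (K : AddSubgroup (ZMod m)) (u : V) :
    ∑ v ∈ univ.erase u, G.DD c u v K + ∑ z ∈ univ.erase u, (G.cls c z K (c z u)).card =
      (Fintype.card V - 1) * (Fintype.card V - 1) := by
  classical
  have h1 : ∑ v ∈ univ.erase u, G.DD c u v K =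
      ∑ z ∈ univ.erase u, ∑ v ∈ (univ.erase u).erase z,
        (if c u z - c v z ∈ K then 0 else 1) := by
    simp only [ddK_eq]
    refine Finset.sum_comm' ?_
    intro v z
    simp only [Finset.mem_erase, Finset.mem_univ, and_true]
    constructor
    · rintro ⟨a, b, d⟩
      exact ⟨⟨fun e => b e.symm, a⟩, d⟩
    · rintro ⟨⟨a, b⟩, d⟩
      exact ⟨b, fun e => a e.symm, d⟩
  rw [h1, ← Finset.sum_add_distrib,
    Finset.sum_congr rfl (fun z hz => clsK_eq c hsym K (Finset.mem_erase.1 hz).1),
    Finset.sum_const, Finset.card_erase_of_mem (Finset.mem_univ _), Finset.card_univ, smul_eq_mul]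

theorem sum_geK (c : V → V → ZMod m) (hsym : ∀ x y, c x y = c y x) (K : AddSubgroup (ZMod m)) {d : ℕ}
    (hd : ∀ x r, (G.cls c x K r).card ≤ d) (hdn : d ≤ Fintype.card V - 1) (u : V) :
    (Fintype.card V - 1) * (Fintype.card V - 1 - d) ≤ ∑ v ∈ univ.erase u, G.DD c u v K := by
  have h1 := sum_ddK c hsym K u
  have h2 : ∑ z ∈ univ.erase u, (G.cls c z K (c z u)).card ≤ (Fintype.card V - 1) * d := by
    have h3 := Finset.sum_le_sum (s := univ.erase u) (fun z _ => hd z (c z u))
    rwa [Finset.sum_const, Finset.card_erase_of_mem (Finset.mem_univ _), Finset.card_univ,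
      smul_eq_mul] at h3
  rw [Nat.mul_sub]
  omega

theorem ddK_le (c : V → V → ZMod m) (K : AddSubgroup (ZMod m)) {u v : V} (huv : u ≠ v) :
    G.DD c u v K + 2 ≤ Fintype.card V := by
  classical
  rw [← G.card_XX huv]
  unfold G.DD G.Dn
  exact Nat.add_le_add_right (Finset.card_filter_le _ _) 2

end O2
end ZS44129
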