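import Mathlib
import Pool.Agent.Work.MP_44129c_co.O2.Defs
import Pool.Agent.Work.MP_44129c_co.G.LemQ
import Pool.Agent.Work.MP_44129c_co.G.Partner

/-!
# MP_44129c_co/O2, WideE (size M): wide pairs for even `m ≤ 3 s + 1`

PROOF.  `Wd c 2 u v`: a subgroup `L ≠ ⊥` with `|L| ≤ 2` has order `2`, so `L = K` (`G.eq_of_card`): `hDK`.  `hj` of `G.pair_thmP` (`κ = 2`): `|L| = 3` divides `m`, so `m = 3 s` (`3 s - 2 ≤ m ≤ 3 s + 1`); `|L| ≥ 4`: `4 s ≥ m`.
So `GP c u v`, or `Hv c 2 u v P r` with `h = |P| ≥ 3`, `(Out + 2) h ≤ m`.  Let `j = m / h` (`h ∣ m`), `2 ≤ Out + 2 ≤ j`; `s + 1 ≤ h + Out` (`G.lemQ`, `s < m`), so `s + 3 ≤ h + j`.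
`j = 2`: second alternative.  `j ≥ 3`: `0 ≤ (h - 3)(j - 3) = m - 3 (h + j) + 9 ≤ m - 3 s` (over the integers).  So `m ≥ 3 s`.
 * `m = 3 s`: the product is `0`: `j = 3` (third alternative) or `h = 3`: `Out + 2 ≤ s`, `|P| + Out ≤ s + 1` (fourth).
 * `m = 3 s + 1`: the product is `≤ 1` and `≡ 1 (mod 3)` (`m + 9 - 3 (h + j) = 3 (s + 3 - h - j) + 1`), `≥ 0`, so it is `1`: `h = j = 4`, `m = 16`, `s = 5`, `Out ≥ s + 1 - h = 2`, `Out ≤ j - 2 = 2` (fifth).
`hv_symm`: `XX_comm`, `Finset.pair_comm`, symmetry of `c` (`Out`, `np`, `Pur`: unfold).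
-/

set_option autoImplicit false

namespace ZS44129
namespace O2

open Finset E X1

variable {V : Type} [Fintype V] [DecidableEq V] {m : ℕ} {c : V → V → ZMod m} {s : ℕ}

private theorem card_dvd [NeZero m] (L : AddSubgroup (ZMod m)) : Nat.card L ∣ m := by
  have h1 := AddSubgroup.card_addSubgroup_dvd_card L
  rwa [Nat.card_zmod] at h1

theorem hv_symm {c : V → V → ZMod m} (hsym : ∀ x y, c x y = c y x) {κ : ℕ} {u v : V} {P : AddSubgroup (ZMod m)}
    {r : ZMod m} (h : G.Hv c κ u v P r) : G.Hv c κ v u P r := by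
  obtain ⟨h1, h2, h3, h4⟩ := h
  have h5 : G.Out c v u P r = G.Out c u v P r := by
    unfold G.Out
    rw [G.XX_comm v u]
    congr 1
    funext x
    exact Finset.pair_comm _ _
  refine ⟨h1.symm, h2, ?_, ?_⟩
  · rw [hsym v u]
    exact h3
  · rw [h5]
    exact h4

theorem wideE [NeZero m] (h : EvS c s) (K : AddSubgroup (ZMod m)) (hK : Nat.card K = 2) {u v : V} (huv : u ≠ v)
    (hD : m < 2 * G.DD c u v ⊥) (hDK : m ≤ (G.DD c u v K + 1) * 2) : G.GP c u v ∨
    (∃ (P : AddSubgroup (ZMod m)) (r : ZMod m), G.Hv c 2 u v P r ∧ 2 * Nat.card P = m) ∨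
    (m = 3 * s ∧ ∃ (P : AddSubgroup (ZMod m)) (r : ZMod m), G.Hv c 2 u v P r ∧ 3 * Nat.card P = m) ∨
    (m = 3 * s ∧ ∃ (P : AddSubgroup (ZMod m)) (r : ZMod m), G.Hv c 2 u v P r ∧ Nat.card P = 3 ∧
      Nat.card P + G.Out c u v P r ≤ s + 1) ∨
    (m = 16 ∧ s = 5 ∧ ∃ (P : AddSubgroup (ZMod m)) (r : ZMod m), G.Hv c 2 u v P r ∧ Nat.card P = 4 ∧
      G.Out c u v P r = 2) := by
  have hs4 := h.s4
  have hm1 := h.m1
  have hm2 := h.m2
  have hW : G.Wd c 2 u v := by
    refine ⟨huv, hD, fun L hL hc => ?_⟩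
    have h1 : 1 < Nat.card L := (AddSubgroup.one_lt_card_iff_ne_bot L).2 hL
    have h2 : Nat.card L = 2 := by omega
    have h3 : L = K := G.eq_of_card L K (by omega)
    rw [h2, h3]
    exact hDK
  have hj : ∀ L : AddSubgroup (ZMod m), 2 < Nat.card L → m ≤ s * Nat.card L := by
    intro L hL
    have hdvd := card_dvd L
    rcases Nat.lt_or_ge (Nat.card L) 4 with h4 | h4
    · have h6 : Nat.card L = 3 := by omega
      rw [h6] at hdvd ⊢
      omega
    · calc m ≤ s * 4 := by omega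
        _ ≤ s * Nat.card L := Nat.mul_le_mul_left s h4
  rcases G.pair_thmP c h.zsf (Or.inl rfl) h.card hj hW with h1 | ⟨P, r, hP⟩
  · exact Or.inl h1
  · right
    have hq := G.lemQ c h.sym h.zsf h.card (by omega) hP
    have hPP := hP
    obtain ⟨-, hP2, -, hP4⟩ := hPP
    obtain ⟨j, hjm⟩ := card_dvd P
    have hpos : 0 < Nat.card P := by omega
    have h7 : G.Out c u v P r + 2 ≤ j := by
      have h8 : Nat.card P * (G.Out c u v P r + 2) ≤ Nat.card P * j := by
        rw [← hjm, mul_comm]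
        exact hP4
      exact Nat.le_of_mul_le_mul_left h8 hpos
    rcases Nat.lt_or_ge j 3 with hj3 | hj3
    · left
      have hj2 : j = 2 := by omega
      refine ⟨P, r, hP, ?_⟩
      rw [hj2] at hjm
      omega
    · right
      obtain ⟨a, ha⟩ := Nat.exists_eq_add_of_le (show 3 ≤ Nat.card P by omega)
      obtain ⟨b, hb⟩ := Nat.exists_eq_add_of_le hj3
      have hmab : m = 9 + 3 * a + 3 * b + a * b := by
        rw [hjm, ha, hb]
        ring
      have hsab : s ≤ 3 + a + b := by omega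
      have hab : a * b ≤ 1 := by omega
      rcases Nat.eq_zero_or_pos (a * b) with h0 | h0
      · rcases Nat.mul_eq_zero.1 h0 with h1 | h1
        · right
          left
          have hP3 : Nat.card P = 3 := by omega
          have hm3 : m = 3 * s := by
            rw [h1] at hmab
            omega
          refine ⟨hm3, P, r, hP, hP3, ?_⟩
          rw [hP3] at hP4 ⊢
          omega
        · left
          have hm3 : m = 3 * s := by
            rw [h1] at hmab
            omega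
          refine ⟨hm3, P, r, hP, ?_⟩
          rw [h1] at hmab
          omega
      · right
        right
        have hab1 : a * b = 1 := by omega
        have ha1 : a = 1 := Nat.eq_one_of_mul_eq_one_right hab1
        have hb1 : b = 1 := by
          rw [ha1, one_mul] at hab1
          exact hab1
        rw [ha1, hb1] at hmab
        have hP3 : Nat.card P = 4 := by omega
        refine ⟨by omega, by omega, P, r, hP, hP3, ?_⟩
        omega

end O2
end ZS44129
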