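import Mathlib
import Pool.Agent.Work.MP_44129c_co.O2.SumK
import Pool.Agent.Work.MP_44129c_co.O2.WideE
import Pool.Agent.Work.MP_44129c_co.O1.GpDD
import Pool.Agent.Work.MP_44129c_co.O1.Tight
import Pool.Agent.Work.MP_44129c_co.G.CosDeg

/-!
# MP_44129c_co/O2, NegE (size M): even `m ≤ 3 s`: there is a `K`-class with at least `m - s` elements

PROOF.  Suppose all `K`-classes have at most `d = m - s - 1` elements; `n = |V| - 1 = m + s - 1`, `n - d = 2 s`, `n ≤ 4 s - 1`.
(1) A pair with `GP c u v` has `DD c u v ⊥ < 2 s`: `O1.gp_dd` (classes are in `K`-classes: `cla_sub`): `DD + s + 1 ≤ m ≤ 3 s`, or `DD + 2 s ≤ 2 d ≤ 4 s - 2`.  Also `DD c u v K ≤ DD c u v ⊥` (`G.dd_anti`).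
(2) Fix `u`; `F` = the `v ≠ u` with `DD c u v K ≥ 2 s`.  For `v ∈ F`: `m < 4 s ≤ 2 DD ⊥`, `(2 s + 1) 2 ≥ m`, so `wideE`; not `GP` by (1); the fourth alternative gives a class with `≥ m - 1 > d` elements at `u`
(`O1.tight3_cla`, `m = 3 s ≥ 12`; `cla_sub`): impossible; `m = 16`, `s = 5` is not `≤ 3 s`.  So `v` is a partner of index `2` (at most one: `G.partner2`), or `m = 3 s` and a partner of index `3` (at most two: `G.partner3`).
`f = |F| ≤ 3`.  `sum_geK`: `2 s n ≤ ∑ DD K ≤ f (n - 1) + (n - f)(2 s - 1)` (`ddK_le`), i.e. `n + 2 s f ≤ f n`: false for `f = 0, 1`, and for `f = 2` (`n + 4 s ≤ 2 n` means `4 s ≤ n`).  So `f = 3`, `m = 3 s`, and there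
are a partner `w` of index `2` (`P2`, `r2`) and a partner `w1` of index `3` (`P3`, `r3`).
(3) `m = 3 s`, `s` even (`2 ∣ m`).  `G.hv2`: `c u z - r2 ∈ P2` for all `z ≠ u, w`.  `Out c u w1 P3 r3 ≤ 1`: `c u z - r3 ∈ P3` for all `z ≠ u` but at most two (`w1` and one position).  So for all `z ≠ u` but at most three both hold;
fix such a `z0`, `ρ = c u z0` (`n ≥ 15`), and `L = P2 ⊓ P3`: all these `z` (at least `n - 3 = 4 s - 4`) are in `cls c u L ρ`.  `|L|` divides `|P2| = 3 s / 2` and `|P3| = s = 2 (s / 2)`, so it divides `s / 2`, `2 |L| ≤ s`.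
`s ≥ 6`: `G.coset_deg` (see its statement: `|cls| + 2 ≤ m + |L|` if `2 |L| ≤ m + 2`): `4 s - 2 ≤ 3 s + s / 2`, `s ≤ 4`: contradiction.  `s = 4`: `|L| ≤ 2`, so `L ≤ K` (`G.le_of_dvd`), and `cls c u K ρ` has at least
`12 > 7 = d` elements: contradiction.
-/

set_option autoImplicit false

namespace ZS44129
namespace O2

open Finset E X1

variable {V : Type} [Fintype V] [DecidableEq V] {m : ℕ} {c : V → V → ZMod m} {s : ℕ}

open Classical in
private theorem ne_badset [NeZero m] (c : V → V → ZMod m) {κ : ℕ} {u w : V}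
    {P : AddSubgroup (ZMod m)} {r : ZMod m} (h : G.Hv c κ u w P r) (h3 : 3 * Nat.card P = m) :
    ((Finset.univ : Finset V).filter (fun z => z ≠ u ∧ c u z - r ∉ P)).card ≤ 2 := by
  have h0 : G.Out c u w P r ≤ 1 := by
    have h1 : (G.Out c u w P r + 2) * Nat.card P ≤ 3 * Nat.card P := h.2.2.2.trans h3.ge
    have h2 := Nat.le_of_mul_le_mul_right h1 Nat.card_pos
    omega
  unfold G.Out G.np at h0
  have hsub : (Finset.univ : Finset V).filter (fun z => z ≠ u ∧ c u z - r ∉ P) ⊆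
      insert w ((G.XX u w).filter
        (fun x => ¬ G.Pur (fun x => ({c u x, c w x} : Finset (ZMod m))) r P x)) := by
    intro z hz
    rw [Finset.mem_filter] at hz
    rw [Finset.mem_insert]
    by_cases hzw : z = w
    · exact Or.inl hzw
    · right
      rw [Finset.mem_filter]
      refine ⟨G.mem_XX.2 ⟨hz.2.1, hzw⟩, fun hp => hz.2.2 (hp _ (by simp))⟩
  have h4 := Finset.card_le_card hsub
  have h5 := Finset.card_insert_le w ((G.XX u w).filter
        (fun x => ¬ G.Pur (fun x => ({c u x, c w x} : Finset (ZMod m))) r P x))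
  have h6 : ((G.XX u w).filter
        (fun x => ¬ G.Pur (fun x => ({c u x, c w x} : Finset (ZMod m))) r P x)).card ≤ 1 := h0
  omega

/-- part (3) -/
private theorem ne_three [NeZero m] (h : EvS c s) (hm : m = 3 * s) (K : AddSubgroup (ZMod m))
    (hK : Nat.card K = 2) (hcls : ∀ (u : V) (r : ZMod m), (G.cls c u K r).card + s + 1 ≤ m)
    {u w w1 : V} {P2 P3 : AddSubgroup (ZMod m)} {r2 r3 : ZMod m} (H2 : G.Hv c 2 u w P2 r2)
    (e2 : 2 * Nat.card P2 = m) (H3 : G.Hv c 2 u w1 P3 r3) (e3 : 3 * Nat.card P3 = m) : False := by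
  classical
  have hs4 := h.s4
  obtain ⟨t, ht⟩ : ∃ t, s = 2 * t := by
    obtain ⟨k, hk⟩ := h.ev
    exact ⟨s / 2, by omega⟩
  have hp2 : Nat.card P2 = 3 * t := by omega
  have hp3 : Nat.card P3 = 2 * t := by omega
  have hpure := G.hv2 c H2 e2
  have hbad := ne_badset c H3 e3
  obtain ⟨L, hL⟩ : ∃ L, L = P2 ⊓ P3 := ⟨_, rfl⟩
  have hL2 : Nat.card L ∣ Nat.card P2 := by
    rw [hL]; exact AddSubgroup.card_dvd_of_le inf_le_left
  have hL3 : Nat.card L ∣ Nat.card P3 := by
    rw [hL]; exact AddSubgroup.card_dvd_of_le inf_le_right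
  have hLt : Nat.card L ∣ t := by
    have h1 := Nat.dvd_sub hL2 hL3
    rw [hp2, hp3] at h1
    have h2 : 3 * t - 2 * t = t := by omega
    rwa [h2] at h1
  have ht0 : 0 < t := by omega
  have hLle : Nat.card L ≤ t := Nat.le_of_dvd ht0 hLt
  obtain ⟨E, hE⟩ : ∃ E : Finset V,
      E = (Finset.univ : Finset V).filter (fun z => z ≠ u ∧ c u z - r3 ∉ P3) := ⟨_, rfl⟩
  have hE2 : E.card ≤ 2 := by
    refine le_trans (Finset.card_le_card fun z hz => ?_) hbad
    rw [hE, Finset.mem_filter] at hz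
    exact Finset.mem_filter.2 hz
  obtain ⟨Z, hZ⟩ : ∃ Z : Finset V, Z = (Finset.univ : Finset V) \ (insert u (insert w E)) :=
    ⟨_, rfl⟩
  have hZc : 4 * s ≤ Z.card + 4 := by
    have h1 : (Finset.univ : Finset V).card ≤ Z.card + (insert u (insert w E)).card := by
      rw [hZ]
      exact Finset.card_le_card_sdiff_add_card
    rw [Finset.card_univ, h.card] at h1
    have h2 := Finset.card_insert_le u (insert w E)
    have h3 := Finset.card_insert_le w E
    omega
  have hZm : ∀ z ∈ Z, z ≠ u ∧ c u z - r2 ∈ P2 ∧ c u z - r3 ∈ P3 := by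
    intro z hz
    rw [hZ, Finset.mem_sdiff] at hz
    have hz2 := hz.2
    rw [Finset.mem_insert, Finset.mem_insert] at hz2
    push Not at hz2
    obtain ⟨h1, h2, h3⟩ := hz2
    refine ⟨h1, (hpure z (G.mem_XX.2 ⟨h1, h2⟩)).1, ?_⟩
    by_contra hc
    apply h3
    rw [hE]
    exact Finset.mem_filter.2 ⟨Finset.mem_univ _, h1, hc⟩
  obtain ⟨z0, hz0⟩ : Z.Nonempty := by
    rw [← Finset.card_pos]; omega
  have h0 := hZm z0 hz0
  have hsub : ∀ z ∈ Z, z ≠ u ∧ c u z - c u z0 ∈ L := by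
    intro z hz
    have h1 := hZm z hz
    refine ⟨h1.1, ?_⟩
    rw [hL, AddSubgroup.mem_inf]
    constructor
    · have := P2.sub_mem h1.2.1 h0.2.1
      have e : c u z - r2 - (c u z0 - r2) = c u z - c u z0 := by abel
      rwa [e] at this
    · have := P3.sub_mem h1.2.2 h0.2.2
      have e : c u z - r3 - (c u z0 - r3) = c u z - c u z0 := by abel
      rwa [e] at this
  have hcd := G.coset_deg c h.zsf u L (by omega) (c u z0)
  have hle : Z.card ≤ ((univ.erase u).filter (fun x => c u x - c u z0 ∈ L)).card := by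
    refine Finset.card_le_card fun z hz => ?_
    rw [Finset.mem_filter, Finset.mem_erase]
    exact ⟨⟨(hsub z hz).1, Finset.mem_univ _⟩, (hsub z hz).2⟩
  have hle' : Z.card + 2 ≤ m + Nat.card L := by
    refine le_trans (Nat.add_le_add_right ?_ 2) hcd
    refine le_trans hle (Finset.card_le_card fun z hz => ?_)
    rw [Finset.mem_filter] at hz
    exact Finset.mem_filter.2 hz
  have hs : s = 4 := by omega
  have ht2 : t = 2 := by omega
  have hLK : L ≤ K := G.le_of_dvd L K (by rw [hK, ← ht2]; exact hLt)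
  have h5 : Z.card ≤ (G.cls c u K (c u z0)).card := by
    refine Finset.card_le_card fun z hz => ?_
    rw [G.mem_cls]
    exact ⟨(hsub z hz).1, hLK (hsub z hz).2⟩
  have h6 := hcls u (c u z0)
  omega

theorem negE [NeZero m] (h : EvS c s) (hm : m ≤ 3 * s) (K : AddSubgroup (ZMod m)) (hK : Nat.card K = 2) :
    ∃ (u : V) (r : ZMod m), m ≤ (G.cls c u K r).card + s := by
  classical
  by_contra hcon
  push Not at hcon
  have hcls : ∀ (u : V) (r : ZMod m), (G.cls c u K r).card + s + 1 ≤ m := fun u r => hcon u r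
  have hs4 := h.s4
  have hm1 := h.m1
  have hV := h.card
  obtain ⟨d, hd⟩ : ∃ d, d + s + 1 = m := ⟨m - s - 1, by omega⟩
  have hcla : ∀ (u : V) (a : ZMod m), (cla c u a).card ≤ d := by
    intro u a
    have h1 := Finset.card_le_card (cla_sub c u K a)
    have h2 := hcls u a
    omega
  have hne : Nonempty V := by
    rw [← Fintype.card_pos_iff]; omega
  obtain ⟨u⟩ := hne
  obtain ⟨F2, hF2⟩ : ∃ F2 : Finset V, F2 = univ.filter (fun v =>
    ∃ (P : AddSubgroup (ZMod m)) (r : ZMod m), G.Hv c 2 u v P r ∧ 2 * Nat.card P = m) := ⟨_, rfl⟩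
  obtain ⟨F3, hF3⟩ : ∃ F3 : Finset V, F3 = univ.filter (fun v => m = 3 * s ∧
    ∃ (P : AddSubgroup (ZMod m)) (r : ZMod m), G.Hv c 2 u v P r ∧ 3 * Nat.card P = m) := ⟨_, rfl⟩
  have hF2c : F2.card ≤ 1 := by
    rw [Finset.card_le_one]
    intro a ha b hb
    rw [hF2, Finset.mem_filter] at ha hb
    obtain ⟨-, P, r, H, e⟩ := ha
    obtain ⟨-, P', r', H', e'⟩ := hb
    exact G.partner2 c (by omega) H e H' e'
  have hF3c : F3.card ≤ 2 := by
    refine G.partner3 c (κ := 2) (by omega) u F3 fun w hw => ?_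
    rw [hF3, Finset.mem_filter] at hw
    exact hw.2.2
  obtain ⟨F, hF⟩ : ∃ F : Finset V, F = (univ.erase u).filter (fun v => 2 * s ≤ G.DD c u v K) :=
    ⟨_, rfl⟩
  have hsub : F ⊆ F2 ∪ F3 := by
    intro v hv
    rw [hF, Finset.mem_filter, Finset.mem_erase] at hv
    obtain ⟨⟨hvu, -⟩, hv2⟩ := hv
    have hanti : G.DD c u v K ≤ G.DD c u v ⊥ := G.dd_anti c u v bot_le
    rcases wideE h K hK hvu.symm (by omega) (by omega) with
      h1 | ⟨P, r, h1, h2⟩ | ⟨h0, P, r, h1, h2⟩ | ⟨h0, P, r, h1, h2, h3⟩ | ⟨h1, h2, -⟩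
    · exfalso
      rcases O1.gp_dd h.zsf (by omega) (by omega) hV h1 (hcla u) (hcla v) with h2 | h2 <;> omega
    · refine Finset.mem_union_left _ ?_
      rw [hF2, Finset.mem_filter]
      exact ⟨Finset.mem_univ _, P, r, h1, h2⟩
    · refine Finset.mem_union_right _ ?_
      rw [hF3, Finset.mem_filter]
      exact ⟨Finset.mem_univ _, h0, P, r, h1, h2⟩
    · exfalso
      obtain ⟨a, ha⟩ := O1.tight3_cla c h.sym h.zsf hV (by omega) (by omega) h1 h2 h3
      have := hcla u a
      omega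
    · omega
  have hFc : F.card ≤ F2.card + F3.card :=
    (Finset.card_le_card hsub).trans (Finset.card_union_le _ _)
  have hsum := sum_geK c h.sym K (d := d) (fun x r => by have := hcls x r; omega)
    (by omega) u
  obtain ⟨n, hn⟩ : ∃ n, n = Fintype.card V - 1 := ⟨_, rfl⟩
  rw [← hn] at hsum
  have hnV : n + 1 = m + s := by omega
  have hnd : n - d = 2 * s := by omega
  rw [hnd] at hsum
  have hFsub : F ⊆ univ.erase u := by rw [hF]; exact Finset.filter_subset _ _
  have hsplit : ∑ v ∈ univ.erase u, G.DD c u v K =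
      ∑ v ∈ (univ.erase u) \ F, G.DD c u v K + ∑ v ∈ F, G.DD c u v K :=
    (Finset.sum_sdiff hFsub).symm
  have hs1 : ∑ v ∈ F, G.DD c u v K ≤ F.card * (n - 1) := by
    have := Finset.sum_le_card_nsmul F (fun v => G.DD c u v K) (n - 1) (fun v hv => by
      have h1 := (Finset.mem_erase.1 (hFsub hv)).1
      have h2 := ddK_le c K h1.symm
      show G.DD c u v K ≤ n - 1
      omega)
    simpa using this
  have hs2 : ∑ v ∈ (univ.erase u) \ F, G.DD c u v K ≤ (n - F.card) * (2 * s - 1) := by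
    have h1 : ((univ.erase u) \ F).card = n - F.card := by
      rw [Finset.card_sdiff_of_subset hFsub, Finset.card_erase_of_mem (Finset.mem_univ _),
        Finset.card_univ, hn]
    rw [← h1]
    have := Finset.sum_le_card_nsmul ((univ.erase u) \ F) (fun v => G.DD c u v K) (2 * s - 1)
      (fun v hv => by
        rw [Finset.mem_sdiff] at hv
        have h2 : ¬ 2 * s ≤ G.DD c u v K := fun hc => hv.2 (by
          rw [hF]; exact Finset.mem_filter.2 ⟨hv.1, hc⟩)
        show G.DD c u v K ≤ 2 * s - 1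
        omega)
    simpa using this
  rw [hsplit] at hsum
  obtain ⟨s', hs'⟩ : ∃ s', s = s' + 1 := ⟨s - 1, by omega⟩
  obtain ⟨f, hf⟩ : ∃ f, f = F.card := ⟨_, rfl⟩
  rw [← hf] at hs1 hs2 hFc
  have hf3 : 3 ≤ f := by
    by_contra hlt
    push Not at hlt
    interval_cases f
    · have h1 : (n - 0) * (2 * s - 1) + n = n * (2 * s) := by
        rw [Nat.sub_zero, Nat.mul_sub, mul_one]
        have : n ≤ n * (2 * s) := Nat.le_mul_of_pos_right n (by omega)
        omega
      omega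
    · have h1 : (n - 1) * (2 * s - 1) + (n - 1) = (n - 1) * (2 * s) := by
        rw [Nat.mul_sub, mul_one]
        have : n - 1 ≤ (n - 1) * (2 * s) := Nat.le_mul_of_pos_right _ (by omega)
        omega
      have h2 : (n - 1) * (2 * s) + 2 * s = n * (2 * s) := by
        rw [Nat.sub_mul, one_mul]
        have : 2 * s ≤ n * (2 * s) := Nat.le_mul_of_pos_left _ (by omega)
        omega
      omega
    · have h1 : (n - 2) * (2 * s - 1) + (n - 2) = (n - 2) * (2 * s) := by
        rw [Nat.mul_sub, mul_one]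
        have : n - 2 ≤ (n - 2) * (2 * s) := Nat.le_mul_of_pos_right _ (by omega)
        omega
      have h2 : (n - 2) * (2 * s) + 2 * (2 * s) = n * (2 * s) := by
        rw [Nat.sub_mul]
        have : 2 * (2 * s) ≤ n * (2 * s) := Nat.mul_le_mul_right _ (by omega)
        omega
      omega
  have hF2p : 0 < F2.card := by omega
  have hF3p : 0 < F3.card := by omega
  obtain ⟨w, hw⟩ := Finset.card_pos.1 hF2p
  obtain ⟨w1, hw1⟩ := Finset.card_pos.1 hF3p
  rw [hF2, Finset.mem_filter] at hw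
  rw [hF3, Finset.mem_filter] at hw1
  obtain ⟨-, P2, r2, H2, e2⟩ := hw
  obtain ⟨-, hm3, P3, r3, H3, e3⟩ := hw1
  exact ne_three h hm3 K hK hcls H2 e2 H3 e3

end O2
end ZS44129
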