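import Mathlib
import Pool.Agent.Work.MP_44129c_co.O2.Defs
import Pool.Agent.Work.MP_44129c_co.G.Pair

/-!
# MP_44129c_co/O2, EqC3 (size M-L): a lifted pair with constant parity at `u`

`X = XX u v`, `|X| = m + s - 2 = 4 s - 1`, `M = m / 2`, `D = #{z ∈ X : al z ≠ ga z} ≥ 2 s`; `al z = a` implies `c u z = a` (`h.hu`), so at most `2 s` positions have `al z = a` (and the same for `ga`).
PROOF.  `c3` (N/C34; `m < 2 s + D`).
(1) SECOND ALTERNATIVE (`∑ cost + s + 1 ≤ m`, i.e. `∑_X cost θ (al z) (ga z) ≤ 2 s`).  `cost ≥ 1` if `al z ≠ ga z` (proved in O1/C3D: `cost θ a b ≥ 1` for `a ≠ b`), `cost ≥ 0` always.  So `D = 2 s`, `cost = 1` at the own positions (`al ≠ ga`)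
and `0` at the `2 s - 1` common ones.  Common: `al z = ga z ∈ {θ - 1, θ}`.  Own: `{al z, ga z} ⊆ [θ - 2, θ + 1]` (`cost = 1`).  The position `w` is own.  So all `2 s - 1` common positions `z` have `al z ∈ {θ - 1, θ}` and (parity `hpar`) the same
value `κ`.  The own positions `z ≠ w` have `al z ∈ [θ - 2, θ + 1]` and `al z - κ` even, so `al z = κ` or `al z = κ'`, where `κ' = κ - 2` (if `κ = θ`) or `κ' = κ + 2` (if `κ = θ - 1`).  At most `2 s` positions have `al = κ`, so at most one
own `z ≠ w` has `al z = κ`, and at least `2 s - 2` positions have `al z = κ'`.  As `2 s - 2 ≥ M` (`4 s - 4 ≥ 3 s + 1`), there are `M` positions with `al = κ` and `M` with `al = κ'`: `m` vertices of the star of `u` with sum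
`M κ + M κ' = M (2 κ ± 2) = m (κ ± 1)`, which is `0` in `ZMod m`: contradiction to `G.zsf_star`.
(2) FIRST ALTERNATIVE (`∑_X q + 2 ≤ m` with `q z = max (max (al z) (ga z) - θ) 0 + max (θ - min (al z) (ga z)) 0`).  For every `z`: `2 q z ≥ [al z ≠ ga z] + [al z ≠ θ] + [ga z ≠ θ]` (case distinction).  `#{z ∈ X : al z ≠ θ} ≥ 4 s - 1 - 2 s = 2 s - 1`,
the same for `ga`.  So `6 s - 2 = 2 (m - 2) ≥ 2 ∑ q ≥ D + #{al ≠ θ} + #{ga ≠ θ} ≥ 2 s + 2 (2 s - 1) = 6 s - 2`: equality everywhere, so `2 q z = [al z ≠ ga z] + [al z ≠ θ] + [ga z ≠ θ]` for every `z ∈ X`, and `#{z ∈ X : al z = θ} = 2 s`.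
A position with `al z ≠ ga z`, `al z ≠ θ`, `ga z ≠ θ` would have `2 q z = 3`: impossible; so if `al z ≠ θ` then `ga z = θ` and `2 q z = 2`, or `ga z = al z` and `2 q z = 2`: in both cases `al z = θ ± 1`.  `2 s ≥ 2` positions have `al z = θ`, and `2 s - 1 ≥ 2`
have `al z = θ ± 1`: choose one of each kind which is not `w`: contradiction to `hpar`.
-/

set_option autoImplicit false

namespace ZS44129
namespace O2

open Finset E X1 N

variable {V : Type} [Fintype V] [DecidableEq V] {m : ℕ} {c : V → V → ZMod m} {s : ℕ}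

private theorem ec_cost (θ a b : ℤ) : (if a ≠ b then 1 else 0) ≤ cost θ a b := by
  unfold cost
  split_ifs <;> omega

private theorem ec_q (θ a b : ℤ) : (if a ≠ b then 1 else 0) + (if a ≠ θ then 1 else 0) +
    (if b ≠ θ then 1 else 0) ≤ 2 * (max (max a b - θ) 0 + max (θ - min a b) 0) := by
  split_ifs <;> omega

private theorem ec_cnt {c : V → V → ZMod m} {u x v : V} (hv : v = u ∨ v = x) {al : V → ℤ}
    (hal : ∀ w, w ≠ u → w ≠ x → (al w : ZMod m) = c v w) (θ : ℤ) {d : ℕ}
    (hd : ∀ a, (cla c v a).card ≤ d) :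
    ((XX u x).filter (fun w => al w = θ)).card ≤ d := by
  refine le_trans (card_le_card ?_) (hd (θ : ZMod m))
  intro w hw
  obtain ⟨h3, h4⟩ := mem_filter.1 hw
  obtain ⟨h5, h6⟩ := mem_XX.1 h3
  have h7 : w ≠ v := by
    rcases hv with rfl | rfl
    · exact h5
    · exact h6
  unfold cla
  rw [mem_filter, mem_erase, ← hal w h5 h6, h4]
  exact ⟨⟨h7, mem_univ w⟩, rfl⟩

private theorem ec_tight {ι : Type} (X : Finset ι) (f g : ι → ℤ) (h : ∀ i ∈ X, f i ≤ g i)
    (hs : ∑ i ∈ X, g i ≤ ∑ i ∈ X, f i) : ∀ i ∈ X, f i = g i :=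
  (sum_eq_sum_iff_of_le h).1 (le_antisymm (sum_le_sum h) hs)

private theorem ec_card (X : Finset V) (p : V → Prop) [DecidablePred p] :
    ((X.filter p).card : ℤ) = ∑ w ∈ X, (if p w then 1 else 0) := by
  rw [card_filter]
  push_cast
  rfl

/-- two values `k`, `k'` with even average taken `m / 2` times each at `u`. -/
private theorem ec_star {c : V → V → ZMod m} (hm0 : 0 < m) (hz : ZSF m c) {u v : V} {al : V → ℤ}
    (hal : ∀ w, w ≠ u → w ≠ v → (al w : ZMod m) = c u w) (hev : 2 ∣ m) {k k' t : ℤ}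
    (hk : k + k' = 2 * t) (hne : k ≠ k')
    (h1 : m / 2 ≤ ((XX u v).filter (fun z => al z = k)).card)
    (h2 : m / 2 ≤ ((XX u v).filter (fun z => al z = k')).card) : False := by
  obtain ⟨A, hA, hAc⟩ := exists_subset_card_eq h1
  obtain ⟨B, hB, hBc⟩ := exists_subset_card_eq h2
  have hdis : Disjoint A B := by
    rw [Finset.disjoint_left]
    intro z hzA hzB
    have e1 := (mem_filter.1 (hA hzA)).2
    have e2 := (mem_filter.1 (hB hzB)).2
    exact hne (e1.symm.trans e2)
  have hmem : ∀ z ∈ A ∪ B, z ∈ XX u v := by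
    intro z hz'
    rcases mem_union.1 hz' with h | h
    · exact (mem_filter.1 (hA h)).1
    · exact (mem_filter.1 (hB h)).1
  have hu : u ∉ A ∪ B := fun h => (mem_XX.1 (hmem u h)).1 rfl
  have hc : (A ∪ B).card = m := by
    rw [card_union_of_disjoint hdis, hAc, hBc]
    omega
  refine G.zsf_star c hz hm0 u ⟨A ∪ B, fun z hz' => mem_erase.2
    ⟨fun h => hu (h ▸ hz'), mem_univ z⟩, hc, fun z => c u z,
    fun z _ => mem_singleton.2 rfl, ?_⟩
  have e1 : ∑ z ∈ A ∪ B, c u z = ((∑ z ∈ A ∪ B, al z : ℤ) : ZMod m) := by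
    rw [Int.cast_sum]
    refine sum_congr rfl fun z hz' => ?_
    obtain ⟨h5, h6⟩ := mem_XX.1 (hmem z hz')
    exact (hal z h5 h6).symm
  have e2 : ∑ z ∈ A ∪ B, al z = (m : ℤ) * t := by
    rw [sum_union hdis, sum_congr rfl (fun z hz' => (mem_filter.1 (hA hz')).2),
      sum_congr rfl (fun z hz' => (mem_filter.1 (hB hz')).2), sum_const, sum_const, hAc, hBc]
    obtain ⟨q, rfl⟩ := hev
    rw [Nat.mul_div_cancel_left q (by norm_num)]
    rw [nsmul_eq_mul, nsmul_eq_mul]
    push_cast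
    linear_combination (q : ℤ) * hk
  rw [e1, e2]
  push_cast
  rw [ZMod.natCast_self, zero_mul]

theorem no_par [NeZero m] {u v : V} {z0 : ℤ} {al ga : V → ℤ} (h : PLift c u v z0 al ga) (hz : ZSF m c)
    (hV : Fintype.card V = m + s) (hm : m = 3 * s + 1) (hev : 2 ∣ m) (hs : 5 ≤ s)
    (hu : ∀ a, (cla c u a).card ≤ 2 * s) (hv : ∀ a, (cla c v a).card ≤ 2 * s)
    (hD : 2 * s ≤ ((XX u v).filter (fun z => al z ≠ ga z)).card) (w : V) (hw : w ∈ XX u v)
    (hww : al w ≠ ga w) (hpar : ∀ z ∈ XX u v, ∀ z' ∈ XX u v, z ≠ w → z' ≠ w → 2 ∣ al z - al z') : False := by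
  have hm0 : 0 < m := by omega
  have hX : (XX u v).card + 2 = m + s := by
    rw [← hV]
    exact card_XX h.ne
  have hDs := ec_card (XX u v) (fun z => al z ≠ ga z)
  have hDz : (2 * s : ℤ) ≤ (((XX u v).filter (fun z => al z ≠ ga z)).card : ℤ) := by
    exact_mod_cast hD
  have hmz : (m : ℤ) = 3 * s + 1 := by exact_mod_cast hm
  rcases c3 h hV (by omega) (by omega) (by omega) with ⟨θ, hq, -, -⟩ | ⟨θ, hq, -, -⟩
  · have n1 := ec_cnt (c := c) (Or.inl rfl) h.hu θ hu
    have n2 := ec_cnt (c := c) (Or.inr rfl) h.hx θ hv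
    have f1 := card_filter_add_card_filter_not (s := XX u v) (fun w => al w = θ)
    have f2 := card_filter_add_card_filter_not (s := XX u v) (fun w => ga w = θ)
    have e3 := ec_card (XX u v) (fun z => al z ≠ θ)
    have e4 := ec_card (XX u v) (fun z => ga z ≠ θ)
    have g1 : (2 * s - 1 : ℤ) ≤ (((XX u v).filter (fun z => al z ≠ θ)).card : ℤ) := by
      simp only [ne_eq]
      omega
    have g2 : (2 * s - 1 : ℤ) ≤ (((XX u v).filter (fun z => ga z ≠ θ)).card : ℤ) := by
      simp only [ne_eq]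
      omega
    have hle : ∀ z ∈ XX u v, (if al z ≠ ga z then 1 else 0) + (if al z ≠ θ then 1 else 0) +
        (if ga z ≠ θ then 1 else 0) ≤
        2 * (max (max (al z) (ga z) - θ) 0 + max (θ - min (al z) (ga z)) 0) :=
      fun z _ => ec_q θ (al z) (ga z)
    have hsum1 : ∑ z ∈ XX u v, ((if al z ≠ ga z then (1 : ℤ) else 0) +
        (if al z ≠ θ then 1 else 0) + (if ga z ≠ θ then 1 else 0)) =
        (((XX u v).filter (fun z => al z ≠ ga z)).card : ℤ) +
        (((XX u v).filter (fun z => al z ≠ θ)).card : ℤ) +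
        (((XX u v).filter (fun z => ga z ≠ θ)).card : ℤ) := by
      rw [sum_add_distrib, sum_add_distrib, ← hDs, ← e3, ← e4]
    have hq' : ∑ z ∈ XX u v,
        2 * (max (max (al z) (ga z) - θ) 0 + max (θ - min (al z) (ga z)) 0) ≤ 6 * s - 2 := by
      rw [← mul_sum]
      linarith
    have htot := sum_le_sum hle
    rw [hsum1] at htot
    have heq := ec_tight (XX u v) _ _ hle (by rw [hsum1]; linarith)
    have hal : (((XX u v).filter (fun z => al z ≠ θ)).card : ℤ) = 2 * s - 1 := by linarith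
    have hodd : ∀ z ∈ XX u v, al z ≠ θ → ¬ (2 ∣ al z - θ) := by
      intro z hz' hne
      have h1 := heq z hz'
      rw [if_pos hne] at h1
      split_ifs at h1 <;> omega
    have hk1 : 1 < ((XX u v).filter (fun w => al w = θ)).card := by
      simp only [ne_eq] at hal
      omega
    have hk2 : 1 < ((XX u v).filter (fun w => al w ≠ θ)).card := by
      omega
    obtain ⟨z1, hz1, hz1w⟩ := exists_mem_ne hk1 w
    obtain ⟨z2, hz2, hz2w⟩ := exists_mem_ne hk2 w
    obtain ⟨a1, a2⟩ := mem_filter.1 hz1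
    obtain ⟨b1, b2⟩ := mem_filter.1 hz2
    refine hodd z2 b1 b2 ?_
    rw [← a2]
    exact hpar z2 b1 z1 a1 hz2w hz1w
  · have hle : ∀ z ∈ XX u v, (if al z ≠ ga z then 1 else 0) ≤ cost θ (al z) (ga z) :=
      fun z _ => ec_cost θ (al z) (ga z)
    have htot := sum_le_sum hle
    have heq := ec_tight (XX u v) _ _ hle (by rw [← hDs]; linarith)
    have hDe : (((XX u v).filter (fun z => al z ≠ ga z)).card : ℤ) = 2 * s := by
      rw [← hDs] at htot
      linarith
    have hcard := card_filter_add_card_filter_not (s := XX u v) (fun z => al z ≠ ga z)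
    -- ranges
    have hcom : ∀ z ∈ XX u v, al z = ga z → al z = θ - 1 ∨ al z = θ := by
      intro z hz' h1
      have h2 := heq z hz'
      unfold cost at h2
      rw [← h1] at h2
      split_ifs at h2 <;> omega
    have hran : ∀ z ∈ XX u v, θ - 2 ≤ al z ∧ al z ≤ θ + 1 := by
      intro z hz'
      have h2 := heq z hz'
      unfold cost at h2
      split_ifs at h2 <;> omega
    have hpos : 0 < ((XX u v).filter (fun z => ¬ (al z ≠ ga z))).card := by omega
    obtain ⟨z1, hz1⟩ := card_pos.1 hpos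
    obtain ⟨hz1X, hz1c⟩ := mem_filter.1 hz1
    have hz1c' : al z1 = ga z1 := not_not.1 hz1c
    have hz1w : z1 ≠ w := by
      rintro rfl
      exact hww hz1c'
    have hκ := hcom z1 hz1X hz1c'
    obtain ⟨k', t, hk't, hkne, hval⟩ : ∃ k' t : ℤ, al z1 + k' = 2 * t ∧ al z1 ≠ k' ∧
        ∀ z ∈ XX u v, z ≠ w → al z = al z1 ∨ al z = k' := by
      rcases hκ with hκ | hκ
      · refine ⟨θ + 1, θ, by omega, by omega, fun z hz' hzw => ?_⟩
        have h1 := hran z hz'
        have h2 := hpar z hz' z1 hz1X hzw hz1w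
        omega
      · refine ⟨θ - 2, θ - 1, by omega, by omega, fun z hz' hzw => ?_⟩
        have h1 := hran z hz'
        have h2 := hpar z hz' z1 hz1X hzw hz1w
        omega
    have n1 := ec_cnt (c := c) (Or.inl rfl) h.hu (al z1) hu
    have hunion : (XX u v).erase w ⊆ (XX u v).filter (fun z => al z = al z1) ∪
        (XX u v).filter (fun z => al z = k') := by
      intro z hz'
      obtain ⟨h1, h2⟩ := mem_erase.1 hz'
      rcases hval z h2 h1 with h3 | h3
      · exact mem_union_left _ (mem_filter.2 ⟨h2, h3⟩)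
      · exact mem_union_right _ (mem_filter.2 ⟨h2, h3⟩)
    have hc1 := (card_le_card hunion).trans (card_union_le _ _)
    rw [card_erase_of_mem hw] at hc1
    -- the common positions have value al z1
    have hcomk : (XX u v).filter (fun z => ¬ (al z ≠ ga z)) ⊆
        (XX u v).filter (fun z => al z = al z1) := by
      intro z hz'
      obtain ⟨h1, h2⟩ := mem_filter.1 hz'
      have h2' : al z = ga z := not_not.1 h2
      have hzw : z ≠ w := by
        rintro rfl
        exact hww h2'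
      refine mem_filter.2 ⟨h1, ?_⟩
      have h3 := hcom z h1 h2'
      have h4 := hpar z h1 z1 hz1X hzw hz1w
      omega
    have hc2 := card_le_card hcomk
    exact ec_star hm0 hz h.hu hev hk't hkne (by omega) (by omega)

end O2
end ZS44129
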