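import Mathlib
import Pool.Agent.Work.MP_44129c_co.O2.SumK
import Pool.Agent.Work.MP_44129c_co.O2.WideE
import Pool.Agent.Work.MP_44129c_co.O2.EqC3
import Pool.Agent.Work.MP_44129c_co.O1.GpDD
import Pool.Agent.Work.MP_44129c_co.G.TightW

/-!
# MP_44129c_co/O2, NoPart (size M): even `m = 3 s + 1`, all `K`-classes `≤ 2 s`: wide pairs are good

`n = |V| - 1 = 4 s`, `s` is odd.  `DD c u v K ≤ DD c u v ⊥` (`G.dd_anti`).
PROOF of `gp_le`.  `O1.gp_dd` with `d = 2 s` (`cla_sub`): `DD + s + 1 ≤ 3 s + 1` or `DD + 2 s ≤ 4 s`.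
PROOF of `no_four` (`m = 16`, `s = 5`).  `|P| + Out = 6 = s + 1`.  There are two different positions `x, x' ∈ XX u w` which are not pure (`Out = 2`; see `Out`, `np`, `Pur`).  `G.tightW` for `x` (`hpar`: `2 ∣ 4`): `Wd c 2 x u` and `16 ≤ DD c x u P + 2`, so
`DD c x u ⊥ ≥ 14 > 10`: not `GP` (`gp_le`).  `wideE` for `x, u` (`Wd` gives `hD`, `hDK`): index `2` (`Hv c 2 x u P' r'`, `2 |P'| = 16`), or the fifth alternative (`|P'| = 4 = |P|`, so `P' = P` by `G.eq_of_card`, and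
`14 ≤ DD c x u P ≤ Out c x u P r' = 2` by `G.pure_dd`: impossible; the third and the fourth need `m = 3 s`).  The same for `x'`: `hv_symm`, `G.partner2` (`u` has at most one partner of index `2`): `x = x'`: contradiction.
PROOF of `no_two`.  Let `Hv c 2 u w P r`, `2 |P| = m`.  `sum_geK` (`d = 2 s`): `8 s² ≤ ∑_{v ≠ u} DD c u v K`; if all `v ≠ u, w` had `DD c u v K ≤ 2 s - 1`, the sum would be `≤ (4 s - 1)(2 s - 1) + (4 s - 1) = 8 s² - 2 s` (`ddK_le`): so some
`v ≠ u, w` has `DD c u v K ≥ 2 s`.  `wideE` (`m < 4 s ≤ 2 DD ⊥`, `m ≤ (2 s + 1) 2`): index `2` is impossible (`partner2`: `v = w`), the third and fourth alternative need `m = 3 s`, the fifth is `no_four`.  So `GP c u v`; `O1.gp_lift`: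
`PLift c' u v z0 al ga`, `c' = g * c - β`.  Apply `no_par` to `c'` and `w` (`c'` is `ZSF`: `zsf_affine`; its classes are classes of `c`: `≤ 2 s`): `hD`: `c u z ≠ c v z` implies `al z ≠ ga z`, `DD ⊥ ≥ DD K ≥ 2 s`.
`hww`: `c u w - r ∉ P`, and `c v w - r = c w v - r ∈ P` (`hv2` for the position `v`), so `c u w ≠ c v w`.  `hpar`: for `z, z' ∈ XX u v`, `≠ w`: `c u z - c u z' ∈ P` (`hv2`), so `al z - al z'` (cast) `= g (c u z - c u z') ∈ P`, and by `G.mem_iff`
`(m / 2) • ((al z - al z' : ℤ) : ZMod m) = 0`: `m ∣ (m / 2)(al z - al z')`, so `2 ∣ al z - al z'`.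
PROOF of `gp_of_wideE`: `wideE`, `no_two`, `no_four`.
-/

set_option autoImplicit false

namespace ZS44129
namespace O2

open Finset E X1 N

variable {V : Type} [Fintype V] [DecidableEq V] {m : ℕ} {c : V → V → ZMod m} {s : ℕ}

theorem gp_le [NeZero m] (h : EvS c s) (hm : m = 3 * s + 1) (K : AddSubgroup (ZMod m))
    (hcl : ∀ x r, (G.cls c x K r).card ≤ 2 * s) {u v : V} (hg : G.GP c u v) : G.DD c u v ⊥ ≤ 2 * s := by
  have h1 := O1.gp_dd (d := 2 * s) h.zsf (by have := h.s4; omega) (by have := h.s4; omega) h.card hg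
    (fun a => (card_le_card (cla_sub c u K a)).trans (hcl u a))
    (fun a => (card_le_card (cla_sub c v K a)).trans (hcl v a))
  omega

private theorem four_aux [NeZero m] (h : EvS c s) (hm : m = 3 * s + 1) (K : AddSubgroup (ZMod m))
    (hK : Nat.card K = 2) (hcl : ∀ x r, (G.cls c x K r).card ≤ 2 * s) (h16 : m = 16) (_h5 : s = 5) {u w : V}
    {P : AddSubgroup (ZMod m)} {r : ZMod m} (hP : G.Hv c 2 u w P r) (hP4 : Nat.card P = 4)
    (hO : G.Out c u w P r = 2) {x : V} (hx : x ∈ G.XX u w) (hxo : ¬ (c u x - r ∈ P ∧ c w x - r ∈ P)) :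
    ∃ (P' : AddSubgroup (ZMod m)) (r' : ZMod m), G.Hv c 2 u x P' r' ∧ 2 * Nat.card P' = m := by
  obtain ⟨hW, hDP⟩ := G.tightW c h.sym h.zsf (le_refl 2) h.card (by omega) hP (by omega) hx hxo
    (fun _ => by rw [hP4]; norm_num)
  have hKb : K ≠ ⊥ := by
    intro h0
    rw [h0, AddSubgroup.card_bot] at hK
    omega
  have hDK := hW.2.2 K hKb hK.le
  rw [hK] at hDK
  have hbot := G.dd_anti c x u (bot_le : (⊥ : AddSubgroup (ZMod m)) ≤ P)
  rcases wideE h K hK hW.1 hW.2.1 hDK with h1 | h1 | h1 | h1 | h1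
  · have := gp_le h hm K hcl h1
    omega
  · obtain ⟨P', r', h2, h3⟩ := h1
    exact ⟨P', r', hv_symm h.sym h2, h3⟩
  · omega
  · omega
  · obtain ⟨-, -, P', r', h2, h3, h4⟩ := h1
    have hPP : P' = P := G.eq_of_card P' P (by rw [h3, hP4])
    subst hPP
    have := G.pure_dd c x u P' r'
    omega

theorem no_four [NeZero m] (h : EvS c s) (hm : m = 3 * s + 1) (K : AddSubgroup (ZMod m)) (hK : Nat.card K = 2)
    (hcl : ∀ x r, (G.cls c x K r).card ≤ 2 * s) (h16 : m = 16) (h5 : s = 5) {u w : V} {P : AddSubgroup (ZMod m)}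
    {r : ZMod m} (hP : G.Hv c 2 u w P r) (hP4 : Nat.card P = 4) (hO : G.Out c u w P r = 2) : False := by
  classical
  have h1 : 1 < ((G.XX u w).filter (fun x => ¬ G.Pur (fun x => ({c u x, c w x} : Finset (ZMod m))) r P x)).card := by
    have h2 : G.Out c u w P r =
        ((G.XX u w).filter (fun x => ¬ G.Pur (fun x => ({c u x, c w x} : Finset (ZMod m))) r P x)).card := by
      unfold G.Out G.np
      exact congrArg Finset.card (Finset.filter_congr_decidable _ _ _)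
    rw [← h2, hO]
    norm_num
  obtain ⟨x, hx, x', hx', hne⟩ := Finset.one_lt_card.1 h1
  have hpu : ∀ y, y ∈ (G.XX u w).filter
      (fun x => ¬ G.Pur (fun x => ({c u x, c w x} : Finset (ZMod m))) r P x) →
      ∃ (P' : AddSubgroup (ZMod m)) (r' : ZMod m), G.Hv c 2 u y P' r' ∧ 2 * Nat.card P' = m := by
    intro y hy
    rw [mem_filter] at hy
    refine four_aux h hm K hK hcl h16 h5 hP hP4 hO hy.1 ?_
    rintro ⟨h2, h3⟩
    apply hy.2
    intro a ha
    rcases Finset.mem_insert.1 ha with rfl | ha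
    · exact h2
    · rw [Finset.mem_singleton.1 ha]
      exact h3
  obtain ⟨P1, r1, h2, h3⟩ := hpu x hx
  obtain ⟨P2, r2, h4, h5'⟩ := hpu x' hx'
  exact hne (G.partner2 c (by rw [h.card]; omega) h2 h3 h4 h5')

theorem no_two [NeZero m] (h : EvS c s) (hm : m = 3 * s + 1) (hs : 5 ≤ s) (K : AddSubgroup (ZMod m)) (hK : Nat.card K = 2)
    (hcl : ∀ x r, (G.cls c x K r).card ≤ 2 * s) {u w : V} {P : AddSubgroup (ZMod m)} {r : ZMod m}
    (hP : G.Hv c 2 u w P r) (hP2 : 2 * Nat.card P = m) : False := by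
  classical
  have hcard := h.card
  have huw : u ≠ w := hP.1
  have hn : Fintype.card V - 1 = 4 * s := by omega
  have h1 := sum_geK c h.sym K (d := 2 * s) hcl (by omega) u
  rw [hn] at h1
  have h2 : ∃ v, v ≠ u ∧ v ≠ w ∧ 2 * s ≤ G.DD c u v K := by
    by_contra hcon
    push Not at hcon
    have h3 : w ∈ univ.erase u := mem_erase.2 ⟨huw.symm, mem_univ w⟩
    have h4 := Finset.sum_erase_add (univ.erase u) (fun v => G.DD c u v K) h3
    have h5 : ∑ v ∈ (univ.erase u).erase w, G.DD c u v K ≤ ((univ.erase u).erase w).card • (2 * s - 1) := by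
      refine Finset.sum_le_card_nsmul _ _ _ ?_
      intro v hv
      rw [mem_erase, mem_erase] at hv
      have := hcon v hv.2.1 hv.1
      omega
    have h6 : ((univ.erase u).erase w).card = 4 * s - 1 := by
      rw [card_erase_of_mem h3, card_erase_of_mem (mem_univ u), card_univ, hn]
    have h7 := ddK_le c K huw
    rw [h6, smul_eq_mul] at h5
    obtain ⟨t, rfl⟩ : ∃ t, s = t + 1 := ⟨s - 1, by omega⟩
    have h8 : 4 * (t + 1) - 1 = 4 * t + 3 := by omega
    have h9 : 2 * (t + 1) - 1 = 2 * t + 1 := by omega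
    have h10 : 4 * (t + 1) - 2 * (t + 1) = 2 * t + 2 := by omega
    rw [h8, h9] at h5
    rw [h10] at h1
    nlinarith
  obtain ⟨v, hvu, hvw, hv⟩ := h2
  have hbot := G.dd_anti c u v (bot_le : (⊥ : AddSubgroup (ZMod m)) ≤ K)
  have hG : G.GP c u v := by
    rcases wideE h K hK hvu.symm (by omega) (by omega) with h1 | h1 | h1 | h1 | h1
    · exact h1
    · exfalso
      obtain ⟨P', r', h2, h3⟩ := h1
      exact hvw (G.partner2 c (by omega) h2 h3 hP hP2)
    · omega
    · omega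
    · exfalso
      obtain ⟨h16, h5, P', r', h2, h3, h4⟩ := h1
      exact no_four h hm K hK hcl h16 h5 h2 h3 h4
  obtain ⟨g, β, z0, al, ga, hL⟩ := O1.gp_lift h.zsf (by omega) h.card hG
  have hgg : ((g⁻¹ : (ZMod m)ˣ) : ZMod m) * (g : ZMod m) = 1 := by
    rw [← Units.val_mul, inv_mul_cancel, Units.val_one]
  have hgi : ∀ a b : ZMod m, (g : ZMod m) * a - β = (g : ZMod m) * b - β → a = b := by
    intro a b hab
    have h3 : (g : ZMod m) * a = (g : ZMod m) * b := sub_left_injective hab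
    have h4 : ((g⁻¹ : (ZMod m)ˣ) : ZMod m) * ((g : ZMod m) * a) =
        ((g⁻¹ : (ZMod m)ˣ) : ZMod m) * ((g : ZMod m) * b) := by rw [h3]
    rwa [← mul_assoc, ← mul_assoc, hgg, one_mul, one_mul] at h4
  have hcl' : ∀ (x : V) (a : ZMod m), (cla (fun x y => (g : ZMod m) * c x y - β) x a).card ≤ 2 * s := by
    intro x a
    refine le_trans (card_le_card ?_) ((card_le_card (cla_sub c x K
      (((g⁻¹ : (ZMod m)ˣ) : ZMod m) * (a + β)))).trans (hcl x _))
    intro y hy
    rw [O1.mem_cla] at hy ⊢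
    refine ⟨hy.1, ?_⟩
    have h1 : (g : ZMod m) * c x y = a + β := by
      rw [← hy.2]
      ring
    rw [← h1, ← mul_assoc, hgg, one_mul]
  have hcol := G.hv2 c hP hP2
  refine no_par hL (zsf_affine c h.zsf g β) h.card hm h.ev hs (hcl' u) (hcl' v) ?_ w
    (G.mem_XX.2 ⟨huw.symm, hvw.symm⟩) ?_ ?_
  · refine le_trans (hv.trans hbot) ?_
    unfold G.DD G.Dn
    apply card_le_card
    intro z hz
    replace hz : z ∈ G.XX u v ∧ c u z - c v z ∉ (⊥ : AddSubgroup (ZMod m)) := by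
      classical
      exact mem_filter.1 hz
    rw [mem_filter]
    refine ⟨hz.1, fun h5 => hz.2 ?_⟩
    rw [AddSubgroup.mem_bot]
    have hzX := G.mem_XX.1 hz.1
    have h6 := hL.hu z hzX.1 hzX.2
    have h7 := hL.hx z hzX.1 hzX.2
    rw [h5, h7] at h6
    rw [hgi _ _ h6, sub_self]
  · intro h5
    have h6 := hL.hu w huw.symm hvw.symm
    have h7 := hL.hx w huw.symm hvw.symm
    rw [h5, h7] at h6
    have h8 : c v w = c u w := hgi _ _ h6
    apply hP.2.2.1
    rw [← h8, h.sym v w]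
    exact (hcol v (G.mem_XX.2 ⟨hvu, hvw⟩)).2
  · intro z hz z' hz' hzw hz'w
    have hzX := G.mem_XX.1 hz
    have hzX' := G.mem_XX.1 hz'
    have h1 := (hcol z (G.mem_XX.2 ⟨hzX.1, hzw⟩)).1
    have h2 := (hcol z' (G.mem_XX.2 ⟨hzX'.1, hz'w⟩)).1
    have h3 : c u z - c u z' ∈ P := by
      have h4 := P.sub_mem h1 h2
      have h5 : c u z - r - (c u z' - r) = c u z - c u z' := by abel
      rwa [h5] at h4
    rw [G.mem_iff] at h3
    have h6 : ((al z - al z' : ℤ) : ZMod m) = (g : ZMod m) * (c u z - c u z') := by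
      rw [Int.cast_sub, hL.hu z hzX.1 hzX.2, hL.hu z' hzX'.1 hzX'.2]
      ring
    have h7 : (((Nat.card P : ℤ) * (al z - al z') : ℤ) : ZMod m) = 0 := by
      rw [Int.cast_mul, h6, Int.cast_natCast, mul_left_comm, ← nsmul_eq_mul, h3, mul_zero]
    rw [ZMod.intCast_zmod_eq_zero_iff_dvd] at h7
    have h8 : (m : ℤ) = (Nat.card P : ℤ) * 2 := by
      have h9 : ((2 * Nat.card P : ℕ) : ℤ) = (m : ℤ) := by rw [hP2]
      push_cast at h9
      linarith
    rw [h8] at h7
    have h10 : (Nat.card P : ℤ) ≠ 0 := by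
      have : 0 < Nat.card P := Nat.card_pos
      omega
    exact Int.dvd_of_mul_dvd_mul_left h10 h7

theorem gp_of_wideE [NeZero m] (h : EvS c s) (hm : m = 3 * s + 1) (hs : 5 ≤ s) (K : AddSubgroup (ZMod m))
    (hK : Nat.card K = 2) (hcl : ∀ x r, (G.cls c x K r).card ≤ 2 * s) {u v : V} (huv : u ≠ v)
    (hD : m < 2 * G.DD c u v ⊥) (hDK : m ≤ (G.DD c u v K + 1) * 2) : G.GP c u v := by
  rcases wideE h K hK huv hD hDK with h1 | h1 | h1 | h1 | h1
  · exact h1
  · exfalso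
    obtain ⟨P', r', h2, h3⟩ := h1
    exact no_two h hm hs K hK hcl h2 h3
  · omega
  · omega
  · exfalso
    obtain ⟨h16, h5, P', r', h2, h3, h4⟩ := h1
    exact no_four h hm K hK hcl h16 h5 h2 h3 h4

end O2
end ZS44129
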