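import Mathlib
import Pool.Agent.Work.MP_44129c_co.O2.NoPart
import Pool.Agent.Work.MP_44129c_co.N.NearMF

/-!
# MP_44129c_co/O2, ZeroE (size M): even `m = 3 s + 1`, all `K`-classes `≤ 2 s`: two colours

`n = |V| - 1 = 4 s`.
PROOF of `two_core`: copy `pz_cls`, …, `partZ_two` from O1/PartZ (they use only these hypotheses: replace the facts of `partZ_dd` by `hdd`, `hcla`).
PROOF of `zero_dd`.  Every pair has `DD c u v K ≤ 2 s`: if `m < 2 DD ⊥` and `m ≤ (DD K + 1) 2` then `GP` (`gp_of_wideE`) and `DD K ≤ DD ⊥ ≤ 2 s` (`gp_le`, `G.dd_anti`); otherwise `2 DD K ≤ 2 DD ⊥ ≤ m ≤ 4 s`, or `2 (DD K + 1) < m`.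
`sum_ddK`: `∑_{v ≠ u} DD c u v K + ∑_{z ≠ u} |cls c z K (c z u)| = 16 s²`, both sums are `≤ 4 s · 2 s`, so all summands are `2 s`.  So `DD c u v K = 2 s`, the pair is wide (`m < 4 s`), `GP`, and `2 s ≤ DD ⊥ ≤ 2 s`: `DD c u v ⊥ = 2 s`.
So the sets `{z : c u z - c v z ∉ K} ⊆ {z : c u z ≠ c v z}` (positions `z ≠ u, v`) are equal: `c u z - c v z ∈ K` implies `c u z = c v z`, for all different `u, v, z`.  Hence `cls c z K (c z u) = cla c z (c z u)`: for `v` in the first set, `v ≠ u`: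
`c z v - c z u ∈ K` implies `c z v = c z u` (symmetry).  So `|cla c z (c z u)| = 2 s`.
-/

set_option autoImplicit false

namespace ZS44129
namespace O2

open Finset E X1 N

variable {V : Type} [Fintype V] [DecidableEq V] {m : ℕ} {c : V → V → ZMod m} {s : ℕ}

private theorem pz_mem {c : V → V → ZMod m} {u w : V} {a : ZMod m} :
    w ∈ cla c u a ↔ w ≠ u ∧ c u w = a := by
  unfold cla
  rw [mem_filter, mem_erase]
  constructor
  · rintro ⟨⟨h1, _⟩, h2⟩
    exact ⟨h1, h2⟩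
  · rintro ⟨h1, h2⟩
    exact ⟨⟨h1, mem_univ _⟩, h2⟩

private theorem pz_erase (hV : Fintype.card V = 4 * s + 1) (x : V) :
    (univ.erase x).card = 4 * s := by
  rw [card_erase_of_mem (mem_univ x), card_univ, hV]
  omega

private theorem pz_two (hsym : ∀ x y, c x y = c y x) (hs : 1 ≤ s) (hV : Fintype.card V = 4 * s + 1)
    (hdd : ∀ u v, u ≠ v → G.DD c u v ⊥ = 2 * s) (hcla : ∀ u v, u ≠ v → (cla c v (c v u)).card = 2 * s) {x y z : V} (hy : y ≠ x) (hz : z ≠ x)
    (hne : c x y ≠ c x z) {w : V} (hw : w ≠ x) : c x w = c x y ∨ c x w = c x z := by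
  have hd : Disjoint (cla c x (c x y)) (cla c x (c x z)) := by
    rw [Finset.disjoint_left]
    intro v h1 h2
    exact hne ((pz_mem.1 h1).2.symm.trans (pz_mem.1 h2).2)
  have hsub : cla c x (c x y) ∪ cla c x (c x z) ⊆ univ.erase x := by
    intro v hv
    rcases mem_union.1 hv with h1 | h1
    · exact mem_erase.2 ⟨(pz_mem.1 h1).1, mem_univ v⟩
    · exact mem_erase.2 ⟨(pz_mem.1 h1).1, mem_univ v⟩
  have heq : cla c x (c x y) ∪ cla c x (c x z) = univ.erase x := by
    apply eq_of_subset_of_card_le hsub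
    rw [card_union_of_disjoint hd, hcla _ _ hy, hcla _ _ hz, pz_erase hV x]
    omega
  have hw' : w ∈ cla c x (c x y) ∪ cla c x (c x z) := by
    rw [heq]
    exact mem_erase.2 ⟨hw, mem_univ w⟩
  rcases mem_union.1 hw' with h1 | h1
  · exact Or.inl (pz_mem.1 h1).2
  · exact Or.inr (pz_mem.1 h1).2

private theorem pz_ex (hsym : ∀ x y, c x y = c y x) (hs : 1 ≤ s) (hV : Fintype.card V = 4 * s + 1)
    (hdd : ∀ u v, u ≠ v → G.DD c u v ⊥ = 2 * s) (hcla : ∀ u v, u ≠ v → (cla c v (c v u)).card = 2 * s) {x y : V} (hy : y ≠ x) :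
    ∃ z, z ≠ x ∧ c x z ≠ c x y := by
  by_contra hcon
  push Not at hcon
  have h1 : univ.erase x ⊆ cla c x (c x y) := by
    intro z hz
    have hz' := (mem_erase.1 hz).1
    exact pz_mem.2 ⟨hz', hcon z hz'⟩
  have h2 := card_le_card h1
  rw [pz_erase hV x, hcla _ _ hy] at h2
  omega

private theorem pz_star (hsym : ∀ x y, c x y = c y x) (hs : 1 ≤ s) (hV : Fintype.card V = 4 * s + 1)
    (hdd : ∀ u v, u ≠ v → G.DD c u v ⊥ = 2 * s) (hcla : ∀ u v, u ≠ v → (cla c v (c v u)).card = 2 * s) {x y p q : V} (hxy : x ≠ y) (hp : p ≠ x) (hq : q ≠ y)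
    (hpb : c x p ≠ c x y) (hqb : c y q ≠ c x y) (hpq : c x p ≠ c y q) {z : V} (hzx : z ≠ x)
    (hzy : z ≠ y) : c x z = c x y ↔ c y z = c x y := by
  classical
  have hyx : c y x = c x y := hsym y x
  set E1 := (G.XX x y).filter (fun z => c x z = c y z) with hE1
  set Fx := (G.XX x y).filter (fun z => c x z = c x y) with hFx
  set Fy := (G.XX x y).filter (fun z => c y z = c x y) with hFy
  have hXX : (G.XX x y).card + 2 = 4 * s + 1 := by
    rw [G.card_XX hxy, hV]
  have hE : E1.card = 2 * s - 1 := by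
    have h1 := hdd _ _ hxy
    have h2 : G.DD c x y ⊥ = ((G.XX x y).filter (fun z => ¬ c x z = c y z)).card := by
      unfold G.DD G.Dn
      apply congrArg
      apply Finset.filter_congr
      intro z _
      rw [AddSubgroup.mem_bot, sub_eq_zero]
    have h3 := card_filter_add_card_filter_not (s := G.XX x y) (fun z => c x z = c y z)
    rw [← h2, h1] at h3
    have h4 : E1.card + 2 * s = (G.XX x y).card := h3
    omega
  have hFxc : Fx.card = 2 * s - 1 := by
    have h1 : Fx = (cla c x (c x y)).erase y := by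
      ext w
      rw [hFx, mem_filter, G.mem_XX, mem_erase, pz_mem]
      tauto
    rw [h1, card_erase_of_mem (pz_mem.2 ⟨hxy.symm, rfl⟩), hcla _ _ hxy.symm]
  have hFyc : Fy.card = 2 * s - 1 := by
    have h1 : Fy = (cla c y (c y x)).erase x := by
      ext w
      rw [hFy, mem_filter, G.mem_XX, mem_erase, pz_mem, hyx]
      tauto
    rw [h1, card_erase_of_mem (pz_mem.2 ⟨hxy, rfl⟩), hcla _ _ hxy]
  have key : ∀ w ∈ E1, c x w = c x y := by
    intro w hw
    obtain ⟨hw1, hw2⟩ := mem_filter.1 hw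
    obtain ⟨hw3, hw4⟩ := G.mem_XX.1 hw1
    rcases pz_two hsym hs hV hdd hcla hxy.symm hp (Ne.symm hpb) hw3 with h1 | h1
    · exact h1
    · exfalso
      have h2 := pz_two hsym hs hV hdd hcla hxy hq (by rw [hyx]; exact Ne.symm hqb) hw4
      rw [← hw2, h1, hyx] at h2
      rcases h2 with h2 | h2
      · exact hpb h2
      · exact hpq h2
  have e1 : E1 = Fx := by
    apply eq_of_subset_of_card_le
    · intro w hw
      exact mem_filter.2 ⟨(mem_filter.1 hw).1, key w hw⟩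
    · rw [hE, hFxc]
  have e2 : E1 = Fy := by
    apply eq_of_subset_of_card_le
    · intro w hw
      have h1 := (mem_filter.1 hw).2
      exact mem_filter.2 ⟨(mem_filter.1 hw).1, h1.symm.trans (key w hw)⟩
    · rw [hE, hFyc]
  have hz : z ∈ G.XX x y := G.mem_XX.2 ⟨hzx, hzy⟩
  constructor
  · intro h1
    have h2 : z ∈ Fy := by
      rw [← e2, e1]
      exact mem_filter.2 ⟨hz, h1⟩
    exact (mem_filter.1 h2).2
  · intro h1
    have h2 : z ∈ Fx := by
      rw [← e1, e2]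
      exact mem_filter.2 ⟨hz, h1⟩
    exact (mem_filter.1 h2).2

private theorem pz_claim (hsym : ∀ x y, c x y = c y x) (hs : 1 ≤ s) (hV : Fintype.card V = 4 * s + 1)
    (hdd : ∀ u v, u ≠ v → G.DD c u v ⊥ = 2 * s) (hcla : ∀ u v, u ≠ v → (cla c v (c v u)).card = 2 * s) {x y p q : V} (hxy : x ≠ y) (hp : p ≠ x) (hq : q ≠ y)
    (hpb : c x p ≠ c x y) (hqb : c y q ≠ c x y) : c x p = c y q := by
  by_contra hpq
  have hyx : c y x = c x y := hsym y x
  have hstar : ∀ z, z ≠ x → z ≠ y → (c x z = c x y ↔ c y z = c x y) := fun z hzx hzy =>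
    pz_star hsym hs hV hdd hcla hxy hp hq hpb hqb hpq hzx hzy
  have hZc : (cla c x (c x p)).card = 2 * s := hcla _ _ hp
  obtain ⟨z, hz, w, hw, hzw⟩ := one_lt_card.1 (show 1 < (cla c x (c x p)).card by omega)
  have hprop : ∀ v ∈ cla c x (c x p), v ≠ x ∧ v ≠ y ∧ c x v = c x p ∧ c y v = c y q := by
    intro v hv
    obtain ⟨h1, h2⟩ := pz_mem.1 hv
    have h3 : v ≠ y := by
      rintro rfl
      exact hpb h2.symm
    refine ⟨h1, h3, h2, ?_⟩
    have h4 : c y v ≠ c x y := by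
      intro h5
      exact hpb (h2.symm.trans ((hstar v h1 h3).2 h5))
    rcases pz_two hsym hs hV hdd hcla hxy hq (by rw [hyx]; exact Ne.symm hqb) h3 with h5 | h5
    · rw [hyx] at h5
      exact absurd h5 h4
    · exact h5
  obtain ⟨z1, z2, z3, z4⟩ := hprop z hz
  obtain ⟨w1, w2, w3, w4⟩ := hprop w hw
  have hzx : c z x = c x p := (hsym z x).trans z3
  have hzy : c z y = c y q := (hsym z y).trans z4
  -- the pair `x, z`
  have s1 := pz_star hsym hs hV hdd hcla (x := x) (y := z) (p := y) (q := y) z1.symm hxy.symm z2.symm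
    (by rw [z3]; exact Ne.symm hpb) (by rw [hzy, z3]; exact Ne.symm hpq)
    (by rw [hzy]; exact Ne.symm hqb) w1 hzw.symm
  rw [z3, w3] at s1
  have r1 : c z w = c x p := s1.1 rfl
  -- the pair `y, z`
  have s2 := pz_star hsym hs hV hdd hcla (x := y) (y := z) (p := x) (q := x) z2.symm hxy z1.symm
    (by rw [z4, hyx]; exact Ne.symm hqb) (by rw [hzx, z4]; exact hpq)
    (by rw [hzx, hyx]; exact Ne.symm hpb) w2 hzw.symm
  rw [z4, w4] at s2
  have r2 : c z w = c y q := s2.1 rfl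
  exact hpq (r1.symm.trans r2)

theorem two_core (c : V → V → ZMod m) (hsym : ∀ x y, c x y = c y x) (hs : 1 ≤ s) (hV : Fintype.card V = 4 * s + 1)
    (hdd : ∀ u v, u ≠ v → G.DD c u v ⊥ = 2 * s) (hcla : ∀ u v, u ≠ v → (cla c v (c v u)).card = 2 * s) :
    ∃ a a' : ZMod m, ∀ x y, x ≠ y → c x y = a ∨ c x y = a' := by
  obtain ⟨x, y, hxy⟩ := Fintype.one_lt_card_iff.1 (show 1 < Fintype.card V by omega)
  obtain ⟨z, hz, hzb⟩ := pz_ex hsym hs hV hdd hcla hxy.symm
  refine ⟨c x y, c x z, fun p q hpq => ?_⟩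
  by_cases hpx : p = x
  · subst hpx
    exact pz_two hsym hs hV hdd hcla hxy.symm hz (Ne.symm hzb) hpq.symm
  · obtain ⟨r, hr, hrb⟩ := pz_ex hsym hs hV hdd hcla (x := p) (y := x) (Ne.symm hpx)
    have hsx : c p x = c x p := hsym p x
    have h2 := pz_two hsym hs hV hdd hcla (x := p) (y := x) (z := r) (Ne.symm hpx) hr (Ne.symm hrb) hpq.symm
    rw [hsx] at h2 hrb
    rcases pz_two hsym hs hV hdd hcla hxy.symm hz (Ne.symm hzb) hpx with h1 | h1
    · have h3 : c x z = c p r := pz_claim hsym hs hV hdd hcla (x := x) (y := p) (Ne.symm hpx) hz hr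
        (by rw [h1]; exact hzb) hrb
      rw [h1, ← h3] at h2
      exact h2
    · have h3 : c x y = c p r := pz_claim hsym hs hV hdd hcla (x := x) (y := p) (Ne.symm hpx) hxy.symm hr
        (by rw [h1]; exact Ne.symm hzb) hrb
      rw [h1, ← h3] at h2
      exact h2.symm

private theorem ze_K_le [NeZero m] (h : EvS c s) (hm : m = 3 * s + 1) (hs : 5 ≤ s)
    (K : AddSubgroup (ZMod m)) (hK : Nat.card K = 2)
    (hcl : ∀ x r, (G.cls c x K r).card ≤ 2 * s) {u v : V} (huv : u ≠ v) :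
    G.DD c u v K ≤ 2 * s := by
  have h0 : G.DD c u v K ≤ G.DD c u v ⊥ := G.dd_anti c u v bot_le
  by_cases hD : m < 2 * G.DD c u v ⊥
  · by_cases hDK : m ≤ (G.DD c u v K + 1) * 2
    · exact h0.trans (gp_le h hm K hcl (gp_of_wideE h hm hs K hK hcl huv hD hDK))
    · omega
  · omega

private theorem ze_KK [NeZero m] (h : EvS c s) (hm : m = 3 * s + 1) (hs : 5 ≤ s)
    (K : AddSubgroup (ZMod m)) (hK : Nat.card K = 2)
    (hcl : ∀ x r, (G.cls c x K r).card ≤ 2 * s) {u v : V} (huv : u ≠ v) :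
    G.DD c u v K = 2 * s ∧ (G.cls c v K (c v u)).card = 2 * s := by
  have hV : Fintype.card V = 4 * s + 1 := by
    rw [h.card]
    omega
  have hsum := sum_ddK c h.sym K u
  rw [hV, Nat.add_sub_cancel] at hsum
  have hA : ∀ z ∈ univ.erase u, G.DD c u z K ≤ 2 * s := fun z hz =>
    ze_K_le h hm hs K hK hcl (mem_erase.1 hz).1.symm
  have hB : ∀ z ∈ univ.erase u, (G.cls c z K (c z u)).card ≤ 2 * s := fun z _ => hcl z _
  have h1 : ∑ _z ∈ univ.erase u, 2 * s = 4 * s * (2 * s) := by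
    rw [sum_const, pz_erase hV, smul_eq_mul]
  have h2 := sum_le_sum hA
  have h3 := sum_le_sum hB
  rw [h1] at h2 h3
  have h4 : 4 * s * (4 * s) = 4 * s * (2 * s) + 4 * s * (2 * s) := by ring
  have e1 : ∑ z ∈ univ.erase u, G.DD c u z K = ∑ _z ∈ univ.erase u, 2 * s := by
    rw [h1]; omega
  have e2 : ∑ z ∈ univ.erase u, (G.cls c z K (c z u)).card = ∑ _z ∈ univ.erase u, 2 * s := by
    rw [h1]; omega
  have hv : v ∈ univ.erase u := mem_erase.2 ⟨huv.symm, mem_univ v⟩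
  exact ⟨(sum_eq_sum_iff_of_le hA).1 e1 v hv, (sum_eq_sum_iff_of_le hB).1 e2 v hv⟩

private theorem ze_bot [NeZero m] (h : EvS c s) (hm : m = 3 * s + 1) (hs : 5 ≤ s)
    (K : AddSubgroup (ZMod m)) (hK : Nat.card K = 2)
    (hcl : ∀ x r, (G.cls c x K r).card ≤ 2 * s) {u v : V} (huv : u ≠ v) :
    G.DD c u v ⊥ = 2 * s := by
  have h0 : G.DD c u v K ≤ G.DD c u v ⊥ := G.dd_anti c u v bot_le
  have h1 := (ze_KK h hm hs K hK hcl huv).1
  have h2 := gp_le h hm K hcl (gp_of_wideE h hm hs K hK hcl huv (by omega) (by omega))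
  omega

private theorem ze_eq [NeZero m] (h : EvS c s) (hm : m = 3 * s + 1) (hs : 5 ≤ s)
    (K : AddSubgroup (ZMod m)) (hK : Nat.card K = 2)
    (hcl : ∀ x r, (G.cls c x K r).card ≤ 2 * s) {u v z : V} (huv : u ≠ v) (hzu : z ≠ u)
    (hzv : z ≠ v) (hz : c u z - c v z ∈ K) : c u z = c v z := by
  classical
  have h1 : G.DD c u v ⊥ = ((G.XX u v).filter (fun z => ¬ c u z = c v z)).card := by
    unfold G.DD G.Dn
    apply congrArg
    apply Finset.filter_congr
    intro z _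
    rw [AddSubgroup.mem_bot, sub_eq_zero]
  have h2 : G.DD c u v K = ((G.XX u v).filter (fun z => c u z - c v z ∉ K)).card := by
    unfold G.DD G.Dn
    apply congrArg
    apply Finset.filter_congr
    intro z _
    exact Iff.rfl
  have hsub : (G.XX u v).filter (fun z => c u z - c v z ∉ K) ⊆
      (G.XX u v).filter (fun z => ¬ c u z = c v z) := by
    intro w hw
    obtain ⟨w1, w2⟩ := mem_filter.1 hw
    refine mem_filter.2 ⟨w1, fun h3 => w2 ?_⟩
    rw [h3, sub_self]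
    exact K.zero_mem
  have heq := eq_of_subset_of_card_le hsub (by
    rw [← h1, ← h2, ze_bot h hm hs K hK hcl huv, (ze_KK h hm hs K hK hcl huv).1])
  by_contra hne
  have h3 : z ∈ (G.XX u v).filter (fun z => ¬ c u z = c v z) :=
    mem_filter.2 ⟨G.mem_XX.2 ⟨hzu, hzv⟩, hne⟩
  rw [← heq] at h3
  exact (mem_filter.1 h3).2 hz

theorem zero_dd [NeZero m] (h : EvS c s) (hm : m = 3 * s + 1) (hs : 5 ≤ s) (K : AddSubgroup (ZMod m))
    (hK : Nat.card K = 2) (hcl : ∀ x r, (G.cls c x K r).card ≤ 2 * s) {u v : V} (huv : u ≠ v) :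
    G.DD c u v ⊥ = 2 * s ∧ (cla c v (c v u)).card = 2 * s := by
  refine ⟨ze_bot h hm hs K hK hcl huv, ?_⟩
  have h1 : cla c v (c v u) = G.cls c v K (c v u) := by
    apply Finset.Subset.antisymm (cla_sub c v K _)
    intro w hw
    obtain ⟨w1, w2⟩ := G.mem_cls.1 hw
    refine pz_mem.2 ⟨w1, ?_⟩
    by_cases hwu : w = u
    · rw [hwu]
    · have h3 := ze_eq h hm hs K hK hcl (u := w) (v := u) (z := v) hwu w1.symm huv.symm
        (by rw [h.sym w v, h.sym u v]; exact w2)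
      rw [h.sym v w, h3, h.sym u v]
  rw [h1]
  exact (ze_KK h hm hs K hK hcl huv).2

theorem zeroE [NeZero m] (h : EvS c s) (hm : m = 3 * s + 1) (hs : 5 ≤ s) (K : AddSubgroup (ZMod m))
    (hK : Nat.card K = 2) (hcl : ∀ x r, (G.cls c x K r).card ≤ 2 * s) :
    ∃ b : V → V → Bool, (∀ x y, b x y = b y x) ∧ MF m b := by
  obtain ⟨a, a', h1⟩ := two_core (s := s) c h.sym (by omega) (by rw [h.card]; omega)
    (fun u v huv => (zero_dd h hm hs K hK hcl huv).1) (fun u v huv => (zero_dd h hm hs K hK hcl huv).2)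
  exact N.two_val_mf h.sym h.zsf a a' h1

end O2
end ZS44129
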