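import Mathlib
import Pool.Agent.Work.MP_44129c_co.O2.NegE
import Pool.Agent.Work.MP_44129c_co.O2.ZeroE

/-!
# MP_44129c_co/O2, EvT (helper8): even `m`, `m ≤ 3 s + 2`, assembly from the exclusion of large `K`-classes

`BigF c s K`: there is no large `K`-class (the statement of helper29's block M2).
-/

set_option autoImplicit false

namespace ZS44129
namespace O2

open Finset E X1

variable {V : Type} [Fintype V] [DecidableEq V] {m : ℕ} {c : V → V → ZMod m} {s : ℕ}

/-- no large `K`-class. -/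
def BigF (c : V → V → ZMod m) (s : ℕ) (K : AddSubgroup (ZMod m)) : Prop :=
  ∀ u r, m ≤ (G.cls c u K r).card + s →
    ((m : ℤ) + s - 1 - (G.cls c u K r).card) * (G.cls c u K r).card < s * (m + s - 1) → False

theorem even_neg [NeZero m] (h : EvS c s) (hm : m ≤ 3 * s) (K : AddSubgroup (ZMod m)) (hK : Nat.card K = 2)
    (hb : BigF c s K) : False := by
  obtain ⟨u, r, h1⟩ := negE h hm K hK
  have hm1 := h.m1
  have hs4 := h.s4
  refine hb u r h1 ?_
  obtain ⟨n, hn⟩ : ∃ n : ℤ, n = (m : ℤ) + s - 1 := ⟨_, rfl⟩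
  obtain ⟨k, hk⟩ : ∃ k : ℤ, k = ((G.cls c u K r).card : ℤ) := ⟨_, rfl⟩
  rw [← hn, ← hk]
  have hn0 : 0 < n := by omega
  have hn4 : n < 4 * s := by omega
  nlinarith [sq_nonneg (n - 2 * k), mul_pos hn0 (sub_pos.2 hn4)]

theorem even_zero [NeZero m] (h : EvS c s) (hs : 5 ≤ s) (hm : m = 3 * s + 1) (K : AddSubgroup (ZMod m))
    (hK : Nat.card K = 2) (hb : BigF c s K) :
    ∃ b : V → V → Bool, (∀ x y, b x y = b y x) ∧ MF m b := by
  by_cases hcl : ∀ x r, (G.cls c x K r).card ≤ 2 * s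
  · exact zeroE h hm hs K hK hcl
  · exfalso
    push Not at hcl
    obtain ⟨u, r, h1⟩ := hcl
    refine hb u r (by omega) ?_
    obtain ⟨k, hk⟩ : ∃ k : ℤ, k = ((G.cls c u K r).card : ℤ) := ⟨_, rfl⟩
    have hk1 : 2 * (s : ℤ) + 1 ≤ k := by omega
    have hn : (m : ℤ) + s - 1 = 4 * s := by omega
    rw [hn, ← hk]
    have h4 : 0 < k - 2 * s := by linarith
    nlinarith [mul_pos h4 h4]

theorem even_one [NeZero m] (hsym : ∀ x y, c x y = c y x) (hz : ZSF m c) (hV : Fintype.card V = m + s)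
    (hs : s = 5 ∨ 8 ≤ s) (hm : m = 3 * s + 2) (K : AddSubgroup (ZMod m)) (hb : BigF c s K) :
    ∃ I, St c s I ∧ ∀ u r, (G.cls c u K r).card ≤ 2 * s + 1 + I := by
  obtain ⟨I, hI, hmax⟩ : ∃ I, I * (I + 1) ≤ s ∧ ∀ i, I < i → s < i * (i + 1) := by
    refine ⟨Nat.findGreatest (fun I => I * (I + 1) ≤ s) s,
      Nat.findGreatest_spec (P := fun I => I * (I + 1) ≤ s) (Nat.zero_le s) (by simp), ?_⟩
    intro i hi
    rcases Nat.lt_or_ge s i with h1 | h1
    · nlinarith
    · have h2 := Nat.findGreatest_is_greatest (P := fun I => I * (I + 1) ≤ s) hi h1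
      exact not_le.1 h2
  have hcl : ∀ u r, (G.cls c u K r).card ≤ 2 * s + 1 + I := by
    intro u r
    by_contra hcon
    obtain ⟨i, hi⟩ : ∃ i, (G.cls c u K r).card = 2 * s + 1 + i :=
      ⟨(G.cls c u K r).card - (2 * s + 1), by omega⟩
    have hi2 := hmax i (by omega)
    refine hb u r (by omega) ?_
    have e1 : ((G.cls c u K r).card : ℤ) = 2 * s + 1 + i := by exact_mod_cast hi
    have e2 : (m : ℤ) + s - 1 = 4 * s + 1 := by omega
    have e3 : (s : ℤ) < i * (i + 1) := by exact_mod_cast hi2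
    rw [e1, e2]
    nlinarith
  refine ⟨I, ⟨hsym, hz, hV, hm, hs, hI, fun u a => ?_⟩, hcl⟩
  exact (card_le_card (cla_sub c u K a)).trans (hcl u a)

end O2
end ZS44129
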